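import Mathlib

/-!
# Bootstrap percolation with a general update family on the square lattice
-/

set_option autoImplicit false

open MeasureTheory Set
open scoped ENNReal

namespace Pool.Agent.Y982.UB

/-- A site of the square lattice. -/
abbrev Site := ℤ × ℤ

/-- An update family: a finite nonempty collection of finite subsets of `ℤ²` without the
origin. -/
structure IsUpdateFamily (U : Finset (Finset Site)) : Prop where
  nonempty : U.Nonempty
  zero_notMem : ∀ X ∈ U, (0 : Site) ∉ X

/-- One step of the dynamics. -/
def step (U : Finset (Finset Site)) (A : Set Site) : Set Site :=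
  A ∪ {x | ∃ X ∈ U, ∀ y ∈ X, x + y ∈ A}

/-- The set `A_t` of the sites infected at time `t`, starting from `A_0 = A`. -/
def evol (U : Finset (Finset Site)) (A : Set Site) : ℕ → Set Site
  | 0 => A
  | t + 1 => step U (evol U A t)

/-- The closure `[A]`, the union of all `A_t`. -/
def clos (U : Finset (Finset Site)) (A : Set Site) : Set Site := ⋃ t, evol U A t

/-- The discrete half plane `{x : ⟨x, u⟩ < 0}` for the unit vector `u = (cos θ, sin θ)`. -/
def halfPlane (θ : ℝ) : Set Site :=
  {x | (x.1 : ℝ) * Real.cos θ + (x.2 : ℝ) * Real.sin θ < 0}

/-- The (angles of the) stable directions. -/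
def stable (U : Finset (Finset Site)) : Set ℝ := {θ | clos U (halfPlane θ) = halfPlane θ}

/-- The family is subcritical: the stable set meets every open semicircle in a set of positive
length. -/
def Subcritical (U : Finset (Finset Site)) : Prop :=
  ∀ a : ℝ, 0 < volume (stable U ∩ Ioo a (a + Real.pi))

/-- A configuration; `ω x = true` means that the site `x` belongs to the initial set. -/
abbrev Conf := Site → Bool

/-- The initial set `A`. -/
def init (ω : Conf) : Set Site := {x | ω x = true}

/-- The Bernoulli law with parameter `p`. -/
noncomputable def bern (p : unitInterval) : Measure Bool :=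
  ENNReal.ofReal p • Measure.dirac true + ENNReal.ofReal (1 - p) • Measure.dirac false

/-- The law under which every site belongs to `A` with probability `p`, independently. -/
noncomputable def P (p : unitInterval) : Measure Conf := Measure.infinitePi fun _ => bern p

/-- Percolation: `[A] = ℤ²`. -/
def perc (U : Finset (Finset Site)) : Set Conf := {ω | clos U (init ω) = univ}

/-- The critical probability. -/
noncomputable def pc (U : Finset (Finset Site)) : unitInterval := sInf {p | P p (perc U) = 1}

/-- The occupation time `min {t : 0 ∈ A_t}` of the origin (`⊤` if there is no such `t`). -/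
noncomputable def T (U : Finset (Finset Site)) (ω : Conf) : ℕ∞ :=
  ⨅ (t : ℕ) (_ : (0 : Site) ∈ evol U (init ω) t), (t : ℕ∞)

end Pool.Agent.Y982.UB
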