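import Pool.Agent.Y982.UB.Defs

/-!
# UB-Det: deterministic facts
-/

set_option autoImplicit false

open Set

namespace Pool.Agent.Y982.UB

variable {U : Finset (Finset Site)}

theorem evol_succ_sub (A : Set Site) (t : ℕ) : evol U A t ⊆ evol U A (t + 1) := subset_union_left

theorem evol_mono (A : Set Site) : Monotone (evol U A) := monotone_nat_of_le_succ (evol_succ_sub A)

theorem evol_mono_A {A B : Set Site} (h : A ⊆ B) (t : ℕ) : evol U A t ⊆ evol U B t := by
  induction t with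
  | zero => exact h
  | succ t ih =>
    rintro x (hx | ⟨X, hX, hx⟩)
    · exact Or.inl (ih hx)
    · exact Or.inr ⟨X, hX, fun y hy => ih (hx y hy)⟩

theorem evol_sub_clos (A : Set Site) (t : ℕ) : evol U A t ⊆ clos U A := subset_iUnion _ t

theorem subset_clos (A : Set Site) : A ⊆ clos U A := evol_sub_clos A 0

theorem clos_mono {A B : Set Site} (h : A ⊆ B) : clos U A ⊆ clos U B :=
  iUnion_mono fun t => evol_mono_A h t

theorem clos_closed {A : Set Site} {x : Site} {X : Finset Site} (hX : X ∈ U)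
    (h : ∀ y ∈ X, x + y ∈ clos U A) : x ∈ clos U A := by
  have h1 : ∀ y ∈ X, ∃ t, x + y ∈ evol U A t := fun y hy => mem_iUnion.1 (h y hy)
  choose! t ht using h1
  have h2 : x ∈ evol U A (X.sup t + 1) := by
    right
    refine ⟨X, hX, fun y hy => evol_mono A (Finset.le_sup hy) (ht y hy)⟩
  exact evol_sub_clos A _ h2

theorem clos_sub_of_closed {A B : Set Site} (hAB : A ⊆ B)
    (hB : ∀ x, ∀ X ∈ U, (∀ y ∈ X, x + y ∈ B) → x ∈ B) : clos U A ⊆ B := by
  refine iUnion_subset fun t => ?_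
  induction t with
  | zero => exact hAB
  | succ t ih =>
    rintro x (hx | ⟨X, hX, hx⟩)
    · exact ih hx
    · exact hB x X hX fun y hy => ih (hx y hy)

/-- a blocked set -/
def Blocked (U : Finset (Finset Site)) (F : Set Site) : Prop :=
  F.Nonempty ∧ ∀ x ∈ F, ∀ X ∈ U, ∃ y ∈ X, x + y ∈ F

theorem blocked_disj {F A : Set Site} (hF : Blocked U F) (hA : A ⊆ Fᶜ) : clos U A ⊆ Fᶜ := by
  apply clos_sub_of_closed hA
  intro x X hX h hx
  obtain ⟨y, hy, hxy⟩ := hF.2 x hx X hX
  exact h y hy hxy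

theorem blocked_of_clos {A : Set Site} (h : clos U A ≠ univ) : Blocked U (clos U A)ᶜ := by
  refine ⟨nonempty_compl.2 h, fun x hx X hX => ?_⟩
  by_contra hcon
  push Not at hcon
  exact hx (clos_closed hX fun y hy => not_not.1 (hcon y hy))

/-- there is no finite blocked set -/
def NoHole (U : Finset (Finset Site)) : Prop := ∀ F : Set Site, F.Finite → ¬ Blocked U F

theorem noHole_iff : NoHole U ↔ ∀ F : Set Site, F.Finite → clos U Fᶜ = univ := by
  constructor
  · intro h F hF
    by_contra hcon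
    refine h _ (hF.subset ?_) (blocked_of_clos hcon)
    rw [compl_subset_comm]
    exact subset_clos _
  · intro h F hF hB
    have h1 := blocked_disj hB (subset_refl Fᶜ)
    rw [h F hF] at h1
    obtain ⟨x, hx⟩ := hB.1
    exact h1 (mem_univ x) hx

/-- the range -/
def Rg (U : Finset (Finset Site)) (r : ℤ) : Prop := ∀ X ∈ U, ∀ y ∈ X, |y.1| ≤ r ∧ |y.2| ≤ r

theorem exists_rg (U : Finset (Finset Site)) : ∃ r : ℕ, 1 ≤ r ∧ Rg U r := by
  have hS : (⋃ X ∈ U, (X : Set Site)).Finite :=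
    Set.Finite.biUnion U.finite_toSet fun X _ => X.finite_toSet
  obtain ⟨M, hM⟩ := (hS.image fun y => |y.1| + |y.2|).bddAbove
  refine ⟨max M.toNat 1, le_max_right _ _, fun X hX y hy => ?_⟩
  have h1 : |y.1| + |y.2| ≤ M := hM ⟨y, by
    simp only [mem_iUnion]
    exact ⟨X, hX, hy⟩, rfl⟩
  have h2 := abs_nonneg y.1
  have h3 := abs_nonneg y.2
  have h4 : M ≤ ((max M.toNat 1 : ℕ) : ℤ) := by
    push_cast
    exact (Int.self_le_toNat M).trans (le_max_left _ _)
  constructor <;> omega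

theorem fill {r : ℤ} (hr : Rg U r) (hN : NoHole U) {A W : Set Site} (hW : W.Finite)
    (h : ∀ x ∈ W, ∀ y : Site, |y.1 - x.1| ≤ r → |y.2 - x.2| ≤ r → y ∉ W → y ∈ clos U A) :
    W ⊆ clos U A := by
  by_contra hcon
  have hne : (W \ clos U A).Nonempty := by
    obtain ⟨x, hx, hx2⟩ := not_subset.1 hcon
    exact ⟨x, hx, hx2⟩
  apply hN (W \ clos U A) (hW.subset sdiff_subset)
  refine ⟨hne, fun x hx X hX => ?_⟩
  by_contra hcon2
  push Not at hcon2
  apply hx.2
  apply clos_closed hX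
  intro y hy
  have h1 := hcon2 y hy
  by_cases hyW : x + y ∈ W
  · by_contra h2
    exact h1 ⟨hyW, h2⟩
  · apply h x hx.1 (x + y) _ _ hyW
    · have := (hr X hX y hy).1
      simpa using this
    · have := (hr X hX y hy).2
      simpa using this

/-! ### tiles -/

/-- the tile of a site -/
def idx (L : ℕ) (x : Site) : Site := (x.1 / (L : ℤ), x.2 / (L : ℤ))

theorem idx_near1 {L : ℕ} (hL : 0 < L) {r a b : ℤ} (hr : r ≤ L) (h : |b - a| ≤ r) :
    |b / (L : ℤ) - a / (L : ℤ)| ≤ 1 := by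
  have hL' : (0 : ℤ) < L := by exact_mod_cast hL
  have a1 := Int.mul_ediv_add_emod a L
  have a2 := Int.emod_nonneg a hL'.ne'
  have a3 := Int.emod_lt_of_pos a hL'
  have b1 := Int.mul_ediv_add_emod b L
  have b2 := Int.emod_nonneg b hL'.ne'
  have b3 := Int.emod_lt_of_pos b hL'
  rw [abs_le] at h ⊢
  set p := a / (L : ℤ)
  set q := b / (L : ℤ)
  constructor
  · have h1 : (L : ℤ) * p < L * (q + 2) := by linarith
    have := lt_of_mul_lt_mul_left h1 hL'.le
    omega
  · have h1 : (L : ℤ) * q < L * (p + 2) := by linarith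
    have := lt_of_mul_lt_mul_left h1 hL'.le
    omega

theorem tile_sub {L : ℕ} (hL : 0 < L) (k : Site) : {x : Site | idx L x = k} ⊆
    ((Finset.Ico ((L : ℤ) * k.1) (L * k.1 + L) ×ˢ Finset.Ico ((L : ℤ) * k.2) (L * k.2 + L) :
      Finset Site) : Set Site) := by
  intro x hx
  have hL' : (0 : ℤ) < L := by exact_mod_cast hL
  have h1 : x.1 / (L : ℤ) = k.1 := congrArg Prod.fst hx
  have h2 : x.2 / (L : ℤ) = k.2 := congrArg Prod.snd hx
  have a1 := Int.mul_ediv_add_emod x.1 L
  have a2 := Int.emod_nonneg x.1 hL'.ne'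
  have a3 := Int.emod_lt_of_pos x.1 hL'
  have b1 := Int.mul_ediv_add_emod x.2 L
  have b2 := Int.emod_nonneg x.2 hL'.ne'
  have b3 := Int.emod_lt_of_pos x.2 hL'
  rw [h1] at a1
  rw [h2] at b1
  simp only [Finset.coe_product, mem_prod, Finset.coe_Ico, mem_Ico]
  refine ⟨⟨by linarith, by linarith⟩, ⟨by linarith, by linarith⟩⟩

theorem tile_fin {L : ℕ} (hL : 0 < L) (k : Site) : {x : Site | idx L x = k}.Finite :=
  (Finset.finite_toSet _).subset (tile_sub hL k)

/-- sites close to another tile -/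
def Bd (L : ℕ) (r : ℤ) : Set Site :=
  {x | ∃ y : Site, |y.1 - x.1| ≤ r ∧ |y.2 - x.2| ≤ r ∧ idx L y ≠ idx L x}

/-- good tiles -/
def Good (U : Finset (Finset Site)) (L : ℕ) (r : ℤ) (A : Set Site) (k : Site) : Prop :=
  ∀ x, idx L x = k → x ∈ Bd L r → x ∈ evol U A L

theorem good_full {L : ℕ} (hL : 0 < L) {r : ℤ} (hr : Rg U r) (hN : NoHole U) {A : Set Site}
    {k : Site} (hk : Good U L r A k) {x : Site} (hx : idx L x = k) : x ∈ clos U A := by
  have h1 : {x : Site | idx L x = k ∧ x ∉ Bd L r} ⊆ clos U A := by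
    refine fill hr hN ((tile_fin hL k).subset fun x hx => hx.1) ?_
    rintro x ⟨hx1, hx2⟩ y hy1 hy2 hyW
    have h2 : idx L y = idx L x := by
      by_contra hcon
      exact hx2 ⟨y, hy1, hy2, hcon⟩
    have h3 : y ∈ Bd L r := by
      by_contra hcon
      exact hyW ⟨h2.trans hx1, hcon⟩
    exact evol_sub_clos A L (hk y (h2.trans hx1) h3)
  by_cases hB : x ∈ Bd L r
  · exact evol_sub_clos A L (hk x hx hB)
  · exact h1 ⟨hx, hB⟩

/-- the graph of the bad tiles -/
def badG (U : Finset (Finset Site)) (L : ℕ) (r : ℤ) (A : Set Site) : SimpleGraph Site where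
  Adj k l := k ≠ l ∧ (|l.1 - k.1| ≤ 1 ∧ |l.2 - k.2| ≤ 1) ∧ ¬ Good U L r A k ∧ ¬ Good U L r A l
  symm := ⟨by
    rintro k l ⟨h1, ⟨h2, h3⟩, h4, h5⟩
    exact ⟨h1.symm, ⟨by rw [abs_sub_comm]; exact h2, by rw [abs_sub_comm]; exact h3⟩, h5, h4⟩⟩
  loopless := ⟨fun k h => h.1 rfl⟩

theorem reach_bad {L : ℕ} {r : ℤ} {A : Set Site} {k l : Site} (hk : ¬ Good U L r A k)
    (h : (badG U L r A).Reachable k l) : ¬ Good U L r A l := by
  obtain ⟨w⟩ := h
  induction w with
  | nil => exact hk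
  | cons hadj _ ih => exact ih hadj.2.2.2

theorem cluster_infinite {L : ℕ} (hL : 0 < L) {r : ℤ} (hr : Rg U r) (hrL : r ≤ L)
    (hN : NoHole U) {A : Set Site} {x : Site} (hx : x ∉ clos U A) :
    {k | (badG U L r A).Reachable (idx L x) k}.Infinite := by
  have hb : ¬ Good U L r A (idx L x) := fun h => hx (good_full hL hr hN h rfl)
  intro hfin
  apply hx
  have hW : {z : Site | (badG U L r A).Reachable (idx L x) (idx L z)}.Finite := by
    have : {z : Site | (badG U L r A).Reachable (idx L x) (idx L z)} =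
        ⋃ k ∈ {k | (badG U L r A).Reachable (idx L x) k}, {z | idx L z = k} := by
      ext z
      simp
    rw [this]
    exact hfin.biUnion fun k _ => tile_fin hL k
  have h1 : {z : Site | (badG U L r A).Reachable (idx L x) (idx L z)} ⊆ clos U A := by
    refine fill hr hN hW ?_
    intro z hz y hy1 hy2 hyW
    have hz' : (badG U L r A).Reachable (idx L x) (idx L z) := hz
    by_cases hg : Good U L r A (idx L y)
    · exact good_full hL hr hN hg rfl
    · exfalso
      apply hyW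
      have hzb := reach_bad hb hz'
      by_cases he : idx L z = idx L y
      · show (badG U L r A).Reachable (idx L x) (idx L y)
        rw [← he]; exact hz'
      · refine hz'.trans (SimpleGraph.Adj.reachable ?_)
        exact ⟨he, ⟨idx_near1 hL hrL hy1, idx_near1 hL hrL hy2⟩, hzb, hg⟩
  exact h1 (SimpleGraph.Reachable.refl _)

theorem walk_len {L : ℕ} {r : ℤ} {A : Set Site} {k l : Site} (w : (badG U L r A).Walk k l) :
    |l.1 - k.1| ≤ w.length ∧ |l.2 - k.2| ≤ w.length := by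
  induction w with
  | nil => simp
  | cons hadj w ih =>
    obtain ⟨h1, h2⟩ := ih
    obtain ⟨-, ⟨h3, h4⟩, -⟩ := hadj
    rw [SimpleGraph.Walk.length_cons]
    push_cast
    rw [abs_le] at h1 h2 h3 h4
    exact ⟨abs_le.2 ⟨by omega, by omega⟩, abs_le.2 ⟨by omega, by omega⟩⟩

theorem exists_path {L : ℕ} (hL : 0 < L) {r : ℤ} (hr : Rg U r) (hrL : r ≤ L)
    (hN : NoHole U) {A : Set Site} {x : Site} (hx : x ∉ clos U A) (n : ℕ) :
    ∃ f : ℕ → Site, f 0 = idx L x ∧
      (∀ i < n, |(f (i + 1)).1 - (f i).1| ≤ 1 ∧ |(f (i + 1)).2 - (f i).2| ≤ 1) ∧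
      (∀ i ≤ n, ∀ j ≤ n, f i = f j → i = j) ∧ ∀ i ≤ n, ¬ Good U L r A (f i) := by
  have hinf := cluster_infinite hL hr hrL hN hx
  have hb : ¬ Good U L r A (idx L x) := fun h => hx (good_full hL hr hN h rfl)
  have hball : ((Finset.Icc ((idx L x).1 - n) ((idx L x).1 + n) ×ˢ
      Finset.Icc ((idx L x).2 - n) ((idx L x).2 + n) : Finset Site) : Set Site).Finite :=
    Finset.finite_toSet _
  obtain ⟨k, hk, hk2⟩ := hinf.exists_notMem_finite hball
  obtain ⟨w⟩ := (show (badG U L r A).Reachable (idx L x) k from hk)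
  set p := w.toPath with hp
  have hlen := walk_len (p : (badG U L r A).Walk (idx L x) k)
  have hn : n < (p : (badG U L r A).Walk (idx L x) k).length := by
    by_contra hcon
    push Not at hcon
    apply hk2
    have hc : (((p : (badG U L r A).Walk (idx L x) k).length : ℕ) : ℤ) ≤ n := by exact_mod_cast hcon
    simp only [Finset.coe_product, mem_prod, Finset.coe_Icc, mem_Icc]
    obtain ⟨h1, h2⟩ := hlen
    rw [abs_le] at h1 h2
    refine ⟨⟨by linarith, by linarith⟩, ⟨by linarith, by linarith⟩⟩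
  refine ⟨fun i => (p : (badG U L r A).Walk (idx L x) k).getVert i, by simp, ?_, ?_, ?_⟩
  · intro i hi
    have := (p : (badG U L r A).Walk (idx L x) k).adj_getVert_succ (i := i) (by omega)
    exact this.2.1
  · intro i hi j hj hij
    exact p.2.getVert_injOn (show i ≤ _ by omega) (show j ≤ _ by omega) hij
  · intro i hi
    apply reach_bad hb
    exact ⟨(p : (badG U L r A).Walk (idx L x) k).take i⟩

end Pool.Agent.Y982.UB
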