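import Pool.Agent.Y982.UB.Prob

/-!
# UB-Fin: continuity in the parameter and the proof of the theorem
-/

set_option autoImplicit false

open MeasureTheory ProbabilityTheory Set
open scoped ENNReal

namespace Pool.Agent.Y982.UB

variable {U : Finset (Finset Site)}

/-! ### locality -/

theorem evol_local {r : ℕ} (hr : Rg U r) {ω ω' : Conf} (t : ℕ) : ∀ x : Site,
    (∀ y ∈ near x (r * t), ω y = ω' y) →
    (x ∈ evol U (init ω) t ↔ x ∈ evol U (init ω') t) := by
  induction t with
  | zero =>
    intro x h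
    have := h x (by simp [near])
    simp only [evol, init, Set.mem_ofPred_eq, this]
  | succ t ih =>
    intro x h
    simp only [evol, step, Set.mem_union, Set.mem_ofPred_eq]
    refine or_congr (ih x fun y hy => h y (near_self x t hy)) (exists_congr fun X =>
      and_congr_right fun hX => forall₂_congr fun y hy => ?_)
    exact ih (x + y) fun z hz => h z (near_sub (hr X hX y hy) t hz)

/-- a finite box -/
noncomputable def box (m : ℕ) : Finset Site := Finset.Icc (-(m : ℤ)) m ×ˢ Finset.Icc (-(m : ℤ)) m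

theorem mem_box {m : ℕ} {y : Site} : y ∈ box m ↔ y ∈ near 0 m := by
  simp only [box, near, Finset.mem_product, Finset.mem_Icc, Set.mem_ofPred_eq, Prod.fst_zero,
    Prod.snd_zero, sub_zero, abs_le]

/-- extension of a pattern -/
noncomputable def ext (B : Finset Site) (s : B → Bool) : Conf :=
  open Classical in fun y => if h : y ∈ B then s ⟨y, h⟩ else false

/-- the weight of a symbol -/
def wt (p : unitInterval) (b : Bool) : ℝ := if b then (p : ℝ) else 1 - p

theorem wt_nonneg (p : unitInterval) (b : Bool) : 0 ≤ wt p b := by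
  cases b
  · simpa [wt] using p.2.2
  · simpa [wt] using p.2.1

theorem bern_singleton (p : unitInterval) (b : Bool) : bern p {b} = ENNReal.ofReal (wt p b) := by
  cases b <;> simp [bern, wt]

open Classical in
theorem q_formula {r : ℕ} (hr : Rg U r) (L : ℕ) :
    ∃ S : Finset (box (r * L) → Bool), ∀ p : unitInterval,
      q U p L = ENNReal.ofReal (∑ s ∈ S, ∏ i, wt p (s i)) := by
  refine ⟨Finset.univ.filter fun s => (0 : Site) ∉ evol U (init (ext (box (r * L)) s)) L,
    fun p => ?_⟩
  set S : Finset (box (r * L) → Bool) :=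
    Finset.univ.filter fun s => (0 : Site) ∉ evol U (init (ext (box (r * L)) s)) L with hS
  have e : {ω : Conf | (0 : Site) ∉ evol U (init ω) L} =
      (box (r * L)).restrict ⁻¹' (S : Set (box (r * L) → Bool)) := by
    ext ω
    simp only [hS, Set.mem_ofPred_eq, Set.mem_preimage, Finset.coe_filter, Finset.mem_univ,
      true_and]
    rw [not_iff_not]
    apply evol_local hr
    intro y hy
    have hy' : y ∈ box (r * L) := mem_box.2 hy
    simp only [ext, hy', dite_true, Finset.restrict]
  unfold q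
  have h1 : (P p).map (box (r * L)).restrict = Measure.pi fun _ : box (r * L) => bern p :=
    Measure.infinitePi_map_restrict (μ := fun _ : Site => bern p)
  have h2 : (P p) ((box (r * L)).restrict ⁻¹' (S : Set (box (r * L) → Bool))) =
      ((P p).map (box (r * L)).restrict) (S : Set (box (r * L) → Bool)) :=
    (Measure.map_apply (Finset.measurable_restrict _) S.finite_toSet.measurableSet).symm
  rw [e, h2, h1, ← sum_measure_singleton, ENNReal.ofReal_sum_of_nonneg
    (fun s _ => Finset.prod_nonneg fun i _ => wt_nonneg p _)]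
  refine Finset.sum_congr rfl fun s _ => ?_
  rw [Measure.pi_singleton, ENNReal.ofReal_prod_of_nonneg (fun i _ => wt_nonneg p _)]
  exact Finset.prod_congr rfl fun i _ => bern_singleton p _

theorem q_cont {r : ℕ} (hr : Rg U r) (L : ℕ) : Continuous fun p => q U p L := by
  obtain ⟨S, hS⟩ := q_formula hr L
  simp only [hS]
  refine ENNReal.continuous_ofReal.comp (continuous_finset_sum _ fun s _ =>
    continuous_finset_prod _ fun i _ => ?_)
  unfold wt
  cases s i
  · exact continuous_const.sub continuous_subtype_val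
  · exact continuous_subtype_val

theorem crit_cont {r : ℕ} (hr : Rg U r) (L : ℕ) : Continuous fun p =>
    (9 : ℝ≥0∞) ^ ((2 * r + 1) ^ 2) * (4 * (r * L) * q U p L) := by
  have h1 := q_cont hr L
  refine ENNReal.continuous_const_mul (by finiteness) |>.comp ?_
  exact (ENNReal.continuous_const_mul (by finiteness)).comp h1

theorem q_anti (p : unitInterval) : Antitone (q U p) := by
  intro m n hmn
  refine measure_mono fun ω hω h => hω (evol_mono _ hmn h)

theorem q_le_one (p : unitInterval) (t : ℕ) : q U p t ≤ 1 := prob_le_one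

/-- if the criterion holds at `p0 > 0` then it holds below `p0` -/
theorem pc_lt {r L : ℕ} (hr : Rg U r) (hL : 0 < L) (hrL : r ≤ L) (hN : NoHole U)
    {p0 : unitInterval} (h0 : 0 < p0)
    (h : 9 ^ ((2 * r + 1) ^ 2) * (4 * (r * L) * q U p0 L) < 1) : pc U < p0 := by
  have h1 : ∀ᶠ p in nhds p0, (9 : ℝ≥0∞) ^ ((2 * r + 1) ^ 2) * (4 * (r * L) * q U p L) < 1 :=
    (crit_cont hr L).continuousAt.eventually_lt continuousAt_const h
  have hne : (nhdsWithin p0 (Iio p0)).NeBot := nhdsLT_neBot_of_exists_lt ⟨0, h0⟩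
  obtain ⟨p, hp1, hp2⟩ := ((h1.filter_mono nhdsWithin_le_nhds).and
    (self_mem_nhdsWithin (s := Iio p0) (a := p0))).exists
  exact lt_of_le_of_lt (sInf_le (criterion hr hL hrL hN p hp1)) hp2

theorem coord_prob (p : unitInterval) (x : Site) (b : Bool) :
    P p {ω : Conf | ω x = b} = ENNReal.ofReal (wt p b) := by
  have h1 : (P p).map (fun ω : Conf => ω x) = bern p :=
    Measure.infinitePi_map_eval (μ := fun _ : Site => bern p) x
  rw [← bern_singleton, ← h1, Measure.map_apply (measurable_pi_apply x) (measurableSet_singleton _)]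
  rfl

theorem q_one (t : ℕ) : q U 1 t = 0 := by
  refine measure_mono_null (t := {ω : Conf | ω 0 = false}) ?_ ?_
  · intro ω hω
    have : (0 : Site) ∉ init ω := fun h => hω (evol_mono _ (Nat.zero_le t) h)
    simpa [init] using this
  · rw [coord_prob]
    simp [wt]

theorem pc_lt_one_of_noHole {r : ℕ} (hr1 : 1 ≤ r) (hr : Rg U r) (hN : NoHole U) : pc U < 1 := by
  refine pc_lt hr hr1 le_rfl hN (zero_lt_one) ?_
  rw [q_one]
  simp

theorem perc_meas : MeasurableSet (perc U) := by
  obtain ⟨r, -, hr⟩ := exists_rg U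
  have : perc U = ⋂ x : Site, ⋃ t : ℕ, {ω : Conf | x ∈ evol U (init ω) t} := by
    ext ω
    simp only [perc, clos, Set.mem_ofPred_eq, Set.eq_univ_iff_forall, Set.mem_iUnion, Set.mem_iInter]
  rw [this]
  exact MeasurableSet.iInter fun x => MeasurableSet.iUnion fun t => evol_meas' hr t x

theorem perc_lt_one {F : Set Site} (hF : F.Finite) (hB : Blocked U F) {p : unitInterval}
    (hp : p < 1) : P p (perc U) ≠ 1 := by
  intro h1
  have h2 : P p (perc U)ᶜ = 0 := (prob_compl_eq_zero_iff perc_meas).2 h1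
  have h3 : (hF.toFinset : Set Site).pi (fun _ => ({false} : Set Bool)) ⊆ (perc U)ᶜ := by
    intro ω hω hperc
    have h4 : init ω ⊆ Fᶜ := by
      intro x hx hxF
      have h5 := hω x (by simpa using hxF)
      have h6 : ω x = true := hx
      rw [h6] at h5
      exact absurd h5 (by simp)
    have h5 := blocked_disj hB h4
    obtain ⟨x, hx⟩ := hB.1
    have h6 : clos U (init ω) = univ := hperc
    rw [h6] at h5
    exact h5 (mem_univ x) hx
  have h4 : P p ((hF.toFinset : Set Site).pi (fun _ => ({false} : Set Bool))) =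
      ∏ i ∈ hF.toFinset, bern p {false} :=
    Measure.infinitePi_pi (μ := fun _ : Site => bern p) (fun i _ => measurableSet_singleton _)
  have h5 : 0 < ∏ i ∈ hF.toFinset, bern p {false} := by
    rw [Finset.prod_const, bern_singleton]
    apply ENNReal.pow_pos
    rw [ENNReal.ofReal_pos]
    have : (p : ℝ) < 1 := hp
    simpa [wt] using this
  have h6 := measure_mono (μ := P p) h3
  rw [h2, h4] at h6
  exact absurd h6 (not_le.2 h5)

theorem pc_lt_one_iff : pc U < 1 ↔ NoHole U := by
  obtain ⟨r, hr1, hr⟩ := exists_rg U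
  constructor
  · intro h F hF hB
    refine absurd h (not_lt.2 ?_)
    refine le_sInf fun p hp => ?_
    by_contra hcon
    exact perc_lt_one hF hB (not_le.1 hcon) hp
  · exact fun h => pc_lt_one_of_noHole hr1 hr h

theorem q_zero (h : ∅ ∉ U) (t : ℕ) : q U 0 t = 1 := by
  have h1 : ∀ᵐ ω ∂(P 0), ∀ x : Site, ω x = false := by
    rw [ae_all_iff]
    intro x
    have h2 : P 0 {ω : Conf | ω x = true} = 0 := by
      rw [coord_prob]
      simp [wt]
    refine measure_mono_null (fun ω hω => ?_) h2
    have : ¬ ω x = false := hω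
    simpa using this
  have h2 : {ω : Conf | (0 : Site) ∉ evol U (init ω) t} =ᵐ[P 0] Set.univ := by
    rw [Filter.eventuallyEq_univ]
    filter_upwards [h1] with ω hω
    have h3 : init ω = ∅ := by
      ext x
      simp [init, hω x]
    have h4 : ∀ t, evol U (∅ : Set Site) t = ∅ := by
      intro t
      induction t with
      | zero => rfl
      | succ t ih =>
        ext x
        simp only [evol, step, ih, Set.mem_union, Set.mem_empty_iff_false, Set.mem_ofPred_eq,
          false_or, iff_false, not_exists, not_and]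
        intro X hX h5
        apply h
        have : X = ∅ := Finset.eq_empty_of_forall_notMem h5
        rw [← this]
        exact hX
    simp only [Set.mem_ofPred_eq, h3, h4, Set.mem_empty_iff_false, not_false_eq_true]
  unfold q
  rw [measure_congr h2, measure_univ]

/-- the critical lower bound at large scales -/
theorem crit_ge {r L : ℕ} (h0 : ∅ ∉ U) (hr1 : 1 ≤ r) (hr : Rg U r) (hrL : r ≤ L)
    (hN : NoHole U) : 1 ≤ 9 ^ ((2 * r + 1) ^ 2) * (4 * (r * L) * q U (pc U) L) := by
  by_contra hcon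
  push Not at hcon
  rcases eq_or_lt_of_le (show (0 : unitInterval) ≤ pc U from unitInterval.nonneg') with h | h
  · rw [← h, q_zero h0] at hcon
    refine absurd hcon (not_lt.2 ?_)
    have h1 : (1 : ℝ≥0∞) ≤ 9 ^ ((2 * r + 1) ^ 2) := one_le_pow₀ (by norm_num)
    have h2 : (1 : ℝ≥0∞) ≤ 4 * (r * L) * 1 := by
      rw [mul_one]
      have : 1 ≤ 4 * (r * L) := by nlinarith [Nat.mul_le_mul hr1 (hr1.trans hrL)]
      exact_mod_cast this
    calc (1 : ℝ≥0∞) = 1 * 1 := (one_mul 1).symm
      _ ≤ _ := mul_le_mul' h1 h2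
  · exact lt_irrefl _ (pc_lt hr (by omega) hrL hN h hcon)

theorem tail_bound (h0 : ∅ ∉ U) (hN : NoHole U) : ∃ c : ℝ, 0 < c ∧ ∀ n : ℕ, 1 ≤ n →
    ENNReal.ofReal (c / n) ≤ q U (pc U) n := by
  obtain ⟨r, hr1, hr⟩ := exists_rg U
  set K : ℝ := 9 ^ ((2 * r + 1) ^ 2) * (4 * r) with hK
  have hr0 : (1 : ℝ) ≤ r := by exact_mod_cast hr1
  have hKp : 0 < K := by positivity
  have hbig : ∀ L : ℕ, r ≤ L → ENNReal.ofReal (1 / (K * L)) ≤ q U (pc U) L := by
    intro L hL
    have h1 := crit_ge h0 hr1 hr hL hN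
    have hqt : q U (pc U) L ≠ ⊤ := ne_top_of_le_ne_top ENNReal.one_ne_top (q_le_one _ _)
    have hL0 : (0 : ℝ) < L := by
      have : 0 < L := by omega
      exact_mod_cast this
    rw [← ENNReal.ofReal_toReal hqt] at h1 ⊢
    set Q := (q U (pc U) L).toReal with hQ
    have hQ0 : 0 ≤ Q := ENNReal.toReal_nonneg
    apply ENNReal.ofReal_le_ofReal
    have h2 : (9 : ℝ≥0∞) ^ ((2 * r + 1) ^ 2) * (4 * (r * L) * ENNReal.ofReal Q) =
        ENNReal.ofReal (K * L * Q) := by
      have e : K * L * Q = (9 : ℝ) ^ ((2 * r + 1) ^ 2) * (4 * (r * L) * Q) := by rw [hK]; ring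
      rw [e, ENNReal.ofReal_mul (by positivity), ENNReal.ofReal_mul (by positivity),
        ENNReal.ofReal_mul (by positivity), ENNReal.ofReal_mul (by positivity),
        ENNReal.ofReal_pow (by norm_num), ENNReal.ofReal_natCast, ENNReal.ofReal_natCast]
      norm_num
    rw [h2, ENNReal.one_le_ofReal] at h1
    rw [div_le_iff₀ (by positivity)]
    linarith
  refine ⟨1 / (K * r), by positivity, fun n hn => ?_⟩
  have hn0 : (1 : ℝ) ≤ n := by exact_mod_cast hn
  rcases le_total r n with h | h
  · refine le_trans (ENNReal.ofReal_le_ofReal ?_) (hbig n h)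
    rw [div_div]
    apply one_div_le_one_div_of_le (by positivity)
    have : K * n * 1 ≤ K * n * r := mul_le_mul_of_nonneg_left hr0 (by positivity)
    linarith
  · refine le_trans (ENNReal.ofReal_le_ofReal ?_) ((hbig r le_rfl).trans (q_anti _ h))
    exact div_le_self (by positivity) hn0

/-! ### the occupation time -/

theorem lt_T_iff (ω : Conf) (n : ℕ) : (n : ℕ∞) < T U ω ↔ (0 : Site) ∉ evol U (init ω) n := by
  constructor
  · intro h h1
    have : T U ω ≤ n := iInf₂_le n h1
    exact absurd h (not_lt.2 this)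
  · intro h
    have h1 : ((n + 1 : ℕ) : ℕ∞) ≤ T U ω := by
      refine le_iInf₂ fun t ht => ?_
      have h2 : n < t := by
        by_contra hcon
        exact h (evol_mono _ (not_lt.1 hcon) ht)
      exact_mod_cast h2
    refine lt_of_lt_of_le ?_ h1
    exact_mod_cast Nat.lt_succ_self n

theorem tail_eq (p : unitInterval) (n : ℕ) : P p {ω | (n : ℕ∞) < T U ω} = q U p n := by
  unfold q
  congr 1
  ext ω
  exact lt_T_iff ω n

theorem sum_le (x : ℕ∞) (N : ℕ) :
    ∑ n ∈ Finset.range N, (if (n : ℕ∞) < x then (1 : ℝ≥0∞) else 0) ≤ (x : ℝ≥0∞) := by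
  classical
  rw [Finset.sum_ite, Finset.sum_const_zero, add_zero, Finset.sum_const, nsmul_eq_mul, mul_one]
  induction x using ENat.recTopCoe with
  | top => simp
  | coe m =>
    have h1 : ((Finset.range N).filter fun n : ℕ => (n : ℕ∞) < (m : ℕ∞)).card ≤ m := by
      calc _ ≤ (Finset.range m).card := by
            apply Finset.card_le_card
            intro n hn
            rw [Finset.mem_filter] at hn
            exact Finset.mem_range.2 (by exact_mod_cast hn.2)
        _ = m := Finset.card_range m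
    simpa using (show ((((Finset.range N).filter fun n : ℕ => (n : ℕ∞) < (m : ℕ∞)).card : ℕ) : ℝ≥0∞)
      ≤ (m : ℝ≥0∞) by exact_mod_cast h1)

theorem sum_q_le (p : unitInterval) (N : ℕ) :
    ∑ n ∈ Finset.range N, q U p n ≤ ∫⁻ ω, (T U ω : ℝ≥0∞) ∂(P p) := by
  classical
  obtain ⟨r, -, hr⟩ := exists_rg U
  have hmeas : ∀ n : ℕ, MeasurableSet {ω : Conf | (n : ℕ∞) < T U ω} := by
    intro n
    have : {ω : Conf | (n : ℕ∞) < T U ω} = {ω : Conf | (0 : Site) ∉ evol U (init ω) n} := by
      ext ω
      exact lt_T_iff ω n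
    rw [this]
    exact (evol_meas' hr n 0).compl
  calc ∑ n ∈ Finset.range N, q U p n
      = ∑ n ∈ Finset.range N, ∫⁻ ω, {ω : Conf | (n : ℕ∞) < T U ω}.indicator 1 ω ∂(P p) := by
        refine Finset.sum_congr rfl fun n _ => ?_
        rw [lintegral_indicator_one (hmeas n), tail_eq]
    _ = ∫⁻ ω, ∑ n ∈ Finset.range N, {ω : Conf | (n : ℕ∞) < T U ω}.indicator 1 ω ∂(P p) := by
        rw [lintegral_finset_sum]
        intro n _
        exact measurable_one.indicator (hmeas n)
    _ ≤ ∫⁻ ω, (T U ω : ℝ≥0∞) ∂(P p) := by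
        refine lintegral_mono fun ω => ?_
        refine le_trans (le_of_eq ?_) (sum_le (T U ω) N)
        refine Finset.sum_congr rfl fun n _ => ?_
        simp only [Set.indicator_apply, Set.mem_ofPred_eq, Pi.one_apply]

theorem mean_infinite (h0 : ∅ ∉ U) (hN : NoHole U) :
    ∫⁻ ω, (T U ω : ℝ≥0∞) ∂(P (pc U)) = ⊤ := by
  obtain ⟨c, hc, hcb⟩ := tail_bound h0 hN
  by_contra hcon
  set M : ℝ := (∫⁻ ω, (T U ω : ℝ≥0∞) ∂(P (pc U))).toReal with hM
  have hdiv := Real.tendsto_sum_range_one_div_nat_succ_atTop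
  obtain ⟨N, hN2⟩ := (hdiv.eventually_gt_atTop (M / c)).exists
  have h1 : ENNReal.ofReal (c * ∑ i ∈ Finset.range N, 1 / ((i : ℝ) + 1)) ≤
      ∫⁻ ω, (T U ω : ℝ≥0∞) ∂(P (pc U)) := by
    calc ENNReal.ofReal (c * ∑ i ∈ Finset.range N, 1 / ((i : ℝ) + 1))
        = ∑ i ∈ Finset.range N, ENNReal.ofReal (c / ((i + 1 : ℕ) : ℝ)) := by
          rw [Finset.mul_sum, ENNReal.ofReal_sum_of_nonneg (fun i _ => by positivity)]
          refine Finset.sum_congr rfl fun i _ => ?_
          push_cast
          congr 1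
          ring
      _ ≤ ∑ i ∈ Finset.range N, q U (pc U) (i + 1) :=
          Finset.sum_le_sum fun i _ => hcb (i + 1) (Nat.le_add_left 1 i)
      _ ≤ ∑ i ∈ Finset.range (N + 1), q U (pc U) i := by
          rw [Finset.sum_range_succ']
          exact le_self_add
      _ ≤ _ := sum_q_le _ _
  have h2 := ENNReal.toReal_mono hcon h1
  rw [ENNReal.toReal_ofReal (by positivity)] at h2
  rw [div_lt_iff₀ hc] at hN2
  linarith

theorem mean_one : ∫⁻ ω, (T U ω : ℝ≥0∞) ∂(P 1) = 0 := by
  have h1 : ∀ᵐ ω ∂(P 1), (T U ω : ℝ≥0∞) = 0 := by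
    have h2 : P 1 {ω : Conf | ω 0 = false} = 0 := by
      rw [coord_prob]
      simp [wt]
    refine measure_mono_null (fun ω hω => ?_) h2
    by_contra hcon
    apply hω
    have h3 : (0 : Site) ∈ evol U (init ω) 0 := by
      show ω 0 = true
      have : ¬ ω 0 = false := hcon
      simpa using this
    have h4 : T U ω ≤ ((0 : ℕ) : ℕ∞) := not_lt.1 fun h => (lt_T_iff ω 0).1 h h3
    have h5 : T U ω = 0 := by simpa using h4
    show (T U ω : ℝ≥0∞) = 0
    rw [h5]
    simp
  rw [lintegral_congr_ae h1]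
  simp

theorem empty_notMem (hs : Subcritical U) : ∅ ∉ U := by
  intro h
  have h1 : stable U = ∅ := by
    ext θ
    simp only [stable, Set.mem_ofPred_eq, Set.mem_empty_iff_false, iff_false]
    intro h2
    have h3 : (0 : Site) ∈ clos U (halfPlane θ) := clos_closed h (by simp)
    rw [h2] at h3
    simp [halfPlane] at h3
  have h2 := hs 0
  rw [h1, Set.empty_inter, measure_empty] at h2
  exact lt_irrefl _ h2

theorem main (hs : Subcritical U) :
    (pc U < 1 ↔ ∀ F : Set Site, F.Finite → clos U Fᶜ = univ) ∧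
    (pc U < 1 → ∃ c : ℝ, 0 < c ∧ ∀ n : ℕ, 1 ≤ n →
      ENNReal.ofReal (c / n) ≤ P (pc U) {ω | (n : ℕ∞) < T U ω}) ∧
    (pc U < 1 → ∫⁻ ω, (T U ω : ℝ≥0∞) ∂(P (pc U)) = ⊤) ∧
    (pc U = 1 → ∫⁻ ω, (T U ω : ℝ≥0∞) ∂(P (pc U)) = 0) := by
  have h0 := empty_notMem hs
  refine ⟨pc_lt_one_iff.trans noHole_iff, fun h => ?_, fun h => ?_, fun h => ?_⟩
  · simp only [tail_eq]
    exact tail_bound h0 (pc_lt_one_iff.1 h)
  · exact mean_infinite h0 (pc_lt_one_iff.1 h)
  · rw [h]
    exact mean_one

end Pool.Agent.Y982.UB
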