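import Pool.Agent.Y982.UB.Det

/-!
# UB-Prob: the finite-size criterion
-/

set_option autoImplicit false

open MeasureTheory ProbabilityTheory Set
open scoped ENNReal

namespace Pool.Agent.Y982.UB

variable {U : Finset (Finset Site)}

instance bern_prob (p : unitInterval) : IsProbabilityMeasure (bern p) := by
  constructor
  have h1 : (0 : ℝ) ≤ p := p.2.1
  have h2 : (0 : ℝ) ≤ 1 - p := sub_nonneg.2 p.2.2
  simp only [bern, Measure.coe_add, Measure.coe_smul, Pi.add_apply, Pi.smul_apply, measure_univ,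
    smul_eq_mul, mul_one]
  rw [← ENNReal.ofReal_add h1 h2]
  simp

instance P_prob (p : unitInterval) : IsProbabilityMeasure (P p) := by
  unfold P
  infer_instance

/-- the sigma algebra of the coordinates in `S` -/
def sg (S : Set Site) : MeasurableSpace Conf :=
  ⨆ i ∈ S, MeasurableSpace.comap (fun ω : Conf => ω i) inferInstance

theorem sg_le (S : Set Site) : sg S ≤ MeasurableSpace.pi :=
  iSup₂_le fun i _ => (measurable_pi_apply i).comap_le

theorem sg_mono {S S' : Set Site} (h : S ⊆ S') : sg S ≤ sg S' :=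
  iSup₂_le fun i hi => le_iSup₂_of_le i (h hi) le_rfl

theorem sg_coord {S : Set Site} {i : Site} (hi : i ∈ S) :
    MeasurableSet[sg S] {ω : Conf | ω i = true} := by
  have h1 : MeasurableSet[MeasurableSpace.comap (fun ω : Conf => ω i) inferInstance]
      {ω : Conf | ω i = true} := ⟨{true}, measurableSet_singleton _, rfl⟩
  exact (le_iSup₂_of_le (f := fun (i : Site) (_ : i ∈ S) =>
    MeasurableSpace.comap (fun ω : Conf => ω i) inferInstance) i hi le_rfl) _ h1

theorem sg_indep (p : unitInterval) {S S' : Set Site} (h : Disjoint S S') :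
    Indep (sg S) (sg S') (P p) := by
  have h1 : iIndepFun (fun (i : Site) (ω : Conf) => ω i) (P p) :=
    iIndepFun_infinitePi (X := fun _ w => w) (fun _ => measurable_id)
  exact indep_iSup_of_disjoint (fun i => (measurable_pi_apply i).comap_le) h1.iIndep h

/-- sites near `x` -/
def near (x : Site) (m : ℕ) : Set Site := {y | |y.1 - x.1| ≤ m ∧ |y.2 - x.2| ≤ m}

theorem near_sub {r : ℕ} {x y : Site} (hy : |y.1| ≤ r ∧ |y.2| ≤ r) (t : ℕ) :
    near (x + y) (r * t) ⊆ near x (r * (t + 1)) := by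
  rintro z ⟨h1, h2⟩
  obtain ⟨h3, h4⟩ := hy
  have e : ((r * (t + 1) : ℕ) : ℤ) = ((r * t : ℕ) : ℤ) + r := by push_cast; ring
  simp only [near, Set.mem_ofPred_eq, Prod.fst_add, Prod.snd_add] at *
  rw [abs_le] at h1 h2 h3 h4
  rw [e]
  exact ⟨abs_le.2 ⟨by linarith [h1.1, h3.1], by linarith [h1.2, h3.2]⟩,
    abs_le.2 ⟨by linarith [h2.1, h4.1], by linarith [h2.2, h4.2]⟩⟩

theorem near_self {r : ℕ} (x : Site) (t : ℕ) : near x (r * t) ⊆ near x (r * (t + 1)) := by
  rintro z ⟨h1, h2⟩
  have e : ((r * t : ℕ) : ℤ) ≤ ((r * (t + 1) : ℕ) : ℤ) := by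
    exact_mod_cast Nat.mul_le_mul_left r (Nat.le_succ t)
  exact ⟨h1.trans e, h2.trans e⟩

theorem evol_meas {r : ℕ} (hr : Rg U r) (t : ℕ) : ∀ x : Site,
    MeasurableSet[sg (near x (r * t))] {ω : Conf | x ∈ evol U (init ω) t} := by
  induction t with
  | zero =>
    intro x
    apply sg_coord
    simp [near]
  | succ t ih =>
    intro x
    have e : {ω : Conf | x ∈ evol U (init ω) (t + 1)} = {ω : Conf | x ∈ evol U (init ω) t} ∪
        ⋃ X ∈ U, ⋂ y ∈ X, {ω : Conf | x + y ∈ evol U (init ω) t} := by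
      ext ω
      simp only [evol, step, Set.mem_union, Set.mem_ofPred_eq, Set.mem_iUnion, Set.mem_iInter,
        exists_prop]
    rw [e]
    refine MeasurableSet.union (sg_mono (near_self x t) _ (ih x)) ?_
    refine MeasurableSet.biUnion U.countable_toSet fun X hX => ?_
    refine MeasurableSet.biInter X.countable_toSet fun y hy => ?_
    exact sg_mono (near_sub (hr X hX y hy) t) _ (ih (x + y))

theorem evol_meas' {r : ℕ} (hr : Rg U r) (t : ℕ) (x : Site) :
    MeasurableSet {ω : Conf | x ∈ evol U (init ω) t} := sg_le _ _ (evol_meas hr t x)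

/-! ### translation invariance -/

theorem evol_shift (v : Site) (A : Set Site) (t : ℕ) :
    evol U {y | y + v ∈ A} t = {y | y + v ∈ evol U A t} := by
  induction t with
  | zero => rfl
  | succ t ih =>
    ext x
    simp only [evol, step, ih, Set.mem_union, Set.mem_ofPred_eq]
    refine or_congr Iff.rfl (exists_congr fun X => and_congr_right fun _ => forall₂_congr
      fun y _ => ?_)
    rw [add_right_comm]

/-- the probability that the origin is not infected at time `t` -/
noncomputable def q (U : Finset (Finset Site)) (p : unitInterval) (t : ℕ) : ℝ≥0∞ :=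
  P p {ω : Conf | (0 : Site) ∉ evol U (init ω) t}

theorem prob_shift {r : ℕ} (hr : Rg U r) (p : unitInterval) (x : Site) (t : ℕ) :
    P p {ω : Conf | x ∉ evol U (init ω) t} = q U p t := by
  have hinj : Function.Injective (fun i : Site => i + x) := add_left_injective x
  have hm : (P p).map (fun (ω : Conf) (i : Site) => ω (i + x)) = P p :=
    Measure.map_infinitePi_infinitePi_of_inj (P := fun _ : Site => bern p) hinj
  have hmeas : Measurable (fun (ω : Conf) (i : Site) => ω (i + x)) :=
    measurable_pi_lambda _ fun i => measurable_pi_apply _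
  unfold q
  have h0 : MeasurableSet {ω : Conf | (0 : Site) ∉ evol U (init ω) t} :=
    (evol_meas' hr t 0).compl
  conv_rhs => rw [← hm]
  rw [Measure.map_apply hmeas h0]
  congr 1
  ext ω
  simp only [Set.mem_ofPred_eq, Set.mem_preimage]
  have e : init (fun i => ω (i + x)) = {y | y + x ∈ init ω} := rfl
  rw [e, evol_shift]
  simp only [Set.mem_ofPred_eq, zero_add]

/-! ### bad tiles -/

theorem ediv_of_mem {L a k : ℤ} (hL : 0 < L) (h1 : L * k ≤ a) (h2 : a < L * k + L) :
    a / L = k := by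
  have a1 := Int.mul_ediv_add_emod a L
  have a2 := Int.emod_nonneg a hL.ne'
  have a3 := Int.emod_lt_of_pos a hL
  set s := a / L
  have h3 : L * s < L * (k + 1) := by linarith
  have h4 : L * k < L * (s + 1) := by linarith
  have h5 := lt_of_mul_lt_mul_left h3 hL.le
  have h6 := lt_of_mul_lt_mul_left h4 hL.le
  omega

/-- the sites of the frame of a tile -/
noncomputable def frame (L r : ℕ) (k : Site) : Finset Site :=
  (Finset.Ico ((L : ℤ) * k.1) (L * k.1 + r) ×ˢ Finset.Ico ((L : ℤ) * k.2) (L * k.2 + L)) ∪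
  (Finset.Ico ((L : ℤ) * k.1 + L - r) (L * k.1 + L) ×ˢ Finset.Ico ((L : ℤ) * k.2) (L * k.2 + L)) ∪
  ((Finset.Ico ((L : ℤ) * k.1) (L * k.1 + L) ×ˢ Finset.Ico ((L : ℤ) * k.2) (L * k.2 + r)) ∪
  (Finset.Ico ((L : ℤ) * k.1) (L * k.1 + L) ×ˢ
    Finset.Ico ((L : ℤ) * k.2 + L - r) (L * k.2 + L)))

theorem frame_card (L r : ℕ) (k : Site) : (frame L r k).card ≤ 4 * (r * L) := by
  unfold frame
  refine (Finset.card_union_le _ _).trans ?_
  have h1 : (Finset.Ico ((L : ℤ) * k.1) (L * k.1 + r) ×ˢ
      Finset.Ico ((L : ℤ) * k.2) (L * k.2 + L)).card = r * L := by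
    rw [Finset.card_product]
    simp
  have h2 : (Finset.Ico ((L : ℤ) * k.1 + L - r) (L * k.1 + L) ×ˢ
      Finset.Ico ((L : ℤ) * k.2) (L * k.2 + L)).card = r * L := by
    rw [Finset.card_product]
    simp
  have h3 : (Finset.Ico ((L : ℤ) * k.1) (L * k.1 + L) ×ˢ
      Finset.Ico ((L : ℤ) * k.2) (L * k.2 + r)).card = r * L := by
    rw [Finset.card_product]
    simp [mul_comm]
  have h4 : (Finset.Ico ((L : ℤ) * k.1) (L * k.1 + L) ×ˢ
      Finset.Ico ((L : ℤ) * k.2 + L - r) (L * k.2 + L)).card = r * L := by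
    rw [Finset.card_product]
    simp [mul_comm]
  have h5 := Finset.card_union_le (Finset.Ico ((L : ℤ) * k.1) (L * k.1 + r) ×ˢ
      Finset.Ico ((L : ℤ) * k.2) (L * k.2 + L)) (Finset.Ico ((L : ℤ) * k.1 + L - r) (L * k.1 + L) ×ˢ
      Finset.Ico ((L : ℤ) * k.2) (L * k.2 + L))
  have h6 := Finset.card_union_le (Finset.Ico ((L : ℤ) * k.1) (L * k.1 + L) ×ˢ
      Finset.Ico ((L : ℤ) * k.2) (L * k.2 + r)) (Finset.Ico ((L : ℤ) * k.1) (L * k.1 + L) ×ˢ
      Finset.Ico ((L : ℤ) * k.2 + L - r) (L * k.2 + L))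
  omega

theorem mem_frame {L r : ℕ} (hL : 0 < L) {x : Site} (hx : x ∈ Bd L r) :
    x ∈ frame L r (idx L x) := by
  have hL' : (0 : ℤ) < L := by exact_mod_cast hL
  have hx' := tile_sub hL (idx L x) (show x ∈ {z : Site | idx L z = idx L x} from rfl)
  simp only [Finset.coe_product, mem_prod, Finset.coe_Ico, mem_Ico] at hx'
  obtain ⟨⟨a1, a2⟩, ⟨b1, b2⟩⟩ := hx'
  by_contra hcon
  obtain ⟨y, hy1, hy2, hy3⟩ := hx
  apply hy3
  simp only [frame, Finset.mem_union, Finset.mem_product, Finset.mem_Ico, not_or, not_and_or,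
    not_and, not_le, not_lt] at hcon
  rw [abs_le] at hy1 hy2
  apply Prod.ext
  · show y.1 / (L : ℤ) = (idx L x).1
    apply ediv_of_mem hL'
    · by_contra h
      push Not at h
      omega
    · by_contra h
      push Not at h
      omega
  · show y.2 / (L : ℤ) = (idx L x).2
    apply ediv_of_mem hL'
    · by_contra h
      push Not at h
      omega
    · by_contra h
      push Not at h
      omega

/-- the event that a tile is bad -/
def Bad (U : Finset (Finset Site)) (L r : ℕ) (k : Site) : Set Conf :=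
  {ω | ¬ Good U L r (init ω) k}

/-- the region of a tile -/
def reg (L r : ℕ) (k : Site) : Set Site := {y | ∃ x, idx L x = k ∧ y ∈ near x (r * L)}

theorem bad_eq (L r : ℕ) (k : Site) : Bad U L r k = (⋂ x ∈ {x : Site | idx L x = k ∧ x ∈ Bd L r},
    {ω : Conf | x ∈ evol U (init ω) L})ᶜ := by
  ext ω
  simp only [Bad, Good, Set.mem_ofPred_eq, Set.mem_compl_iff, Set.mem_iInter, and_imp]

theorem bad_meas {L r : ℕ} (hr : Rg U r) (k : Site) :
    MeasurableSet[sg (reg L r k)] (Bad U L r k) := by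
  rw [bad_eq]
  apply MeasurableSet.compl
  refine MeasurableSet.biInter (Set.to_countable _) fun x hx => ?_
  have hsub : near x (r * L) ⊆ reg L r k := fun y hy => ⟨x, hx.1, hy⟩
  exact sg_mono hsub _ (evol_meas hr L x)

theorem bad_le {L r : ℕ} (hL : 0 < L) (hr : Rg U r) (p : unitInterval) (k : Site) :
    P p (Bad U L r k) ≤ 4 * (r * L) * q U p L := by
  have h1 : Bad U L r k ⊆ ⋃ x ∈ frame L r k, {ω : Conf | x ∉ evol U (init ω) L} := by
    intro ω hω
    simp only [Bad, Good, Set.mem_ofPred_eq] at hω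
    push Not at hω
    obtain ⟨x, hx1, hx2, hx3⟩ := hω
    have := mem_frame hL hx2
    rw [hx1] at this
    exact Set.mem_biUnion this hx3
  refine (measure_mono h1).trans ((measure_biUnion_finset_le _ _).trans ?_)
  rw [Finset.sum_congr rfl fun x _ => prob_shift hr p x L, Finset.sum_const, nsmul_eq_mul]
  refine mul_le_mul_left ?_ _
  have := frame_card L r k
  exact_mod_cast this

theorem reg_disj {L r : ℕ} (hL : 0 < L) {k l : Site}
    (h : (2 * (r : ℤ) + 1 ≤ |k.1 - l.1|) ∨ (2 * (r : ℤ) + 1 ≤ |k.2 - l.2|)) :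
    Disjoint (reg L r k) (reg L r l) := by
  have hL' : (0 : ℤ) < L := by exact_mod_cast hL
  rw [Set.disjoint_left]
  rintro y ⟨x, hx, hxy⟩ ⟨z, hz, hzy⟩
  have key : ∀ a b c : ℤ, |c - a| ≤ ((r * L : ℕ) : ℤ) → |c - b| ≤ ((r * L : ℕ) : ℤ) →
      ¬ (2 * (r : ℤ) + 1 ≤ |a / (L : ℤ) - b / (L : ℤ)|) := by
    intro a b c h1 h2 h3
    have a1 := Int.mul_ediv_add_emod a L
    have a2 := Int.emod_nonneg a hL'.ne'
    have a3 := Int.emod_lt_of_pos a hL'
    have b1 := Int.mul_ediv_add_emod b L
    have b2 := Int.emod_nonneg b hL'.ne'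
    have b3 := Int.emod_lt_of_pos b hL'
    set u := a / (L : ℤ)
    set v := b / (L : ℤ)
    push_cast at h1 h2
    rw [abs_le] at h1 h2
    rcases le_abs.1 h3 with h4 | h4
    · have h5 : (L : ℤ) * (2 * r + 1) ≤ L * (u - v) := mul_le_mul_of_nonneg_left h4 hL'.le
      nlinarith [h1.1, h1.2, h2.1, h2.2]
    · have h5 : (L : ℤ) * (2 * r + 1) ≤ L * (-(u - v)) := mul_le_mul_of_nonneg_left h4 hL'.le
      nlinarith [h1.1, h1.2, h2.1, h2.2]
  have hk1 : k.1 = x.1 / (L : ℤ) := (congrArg Prod.fst hx).symm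
  have hk2 : k.2 = x.2 / (L : ℤ) := (congrArg Prod.snd hx).symm
  have hl1 : l.1 = z.1 / (L : ℤ) := (congrArg Prod.fst hz).symm
  have hl2 : l.2 = z.2 / (L : ℤ) := (congrArg Prod.snd hz).symm
  rcases h with h | h
  · rw [hk1, hl1] at h
    exact key _ _ _ hxy.1 hzy.1 h
  · rw [hk2, hl2] at h
    exact key _ _ _ hxy.2 hzy.2 h

theorem bad_prod {L r : ℕ} (hr : Rg U r) (p : unitInterval) {δ : ℝ≥0∞}
    (hδ : ∀ k, P p (Bad U L r k) ≤ δ) (W : Finset Site)
    (hW : ∀ k ∈ W, ∀ l ∈ W, k ≠ l → Disjoint (reg L r k) (reg L r l)) :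
    P p (⋂ k ∈ W, Bad U L r k) ≤ δ ^ W.card := by
  classical
  induction W using Finset.induction_on with
  | empty => simp
  | insert a W ha ih =>
    have h1 : Disjoint (⋃ k ∈ W, reg L r k) (reg L r a) := by
      rw [Set.disjoint_iUnion₂_left]
      intro k hk
      exact hW k (Finset.mem_insert_of_mem hk) a (Finset.mem_insert_self _ _)
        (fun h => ha (h ▸ hk))
    have h2 : MeasurableSet[sg (⋃ k ∈ W, reg L r k)] (⋂ k ∈ W, Bad U L r k) := by
      refine MeasurableSet.biInter W.countable_toSet fun k hk => ?_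
      exact sg_mono (Set.subset_biUnion_of_mem (u := fun k => reg L r k) hk) _ (bad_meas hr k)
    have h3 := (Indep_iff _ _ _).1 (sg_indep p h1) _ _ h2 (bad_meas hr a)
    rw [Finset.set_biInter_insert, Set.inter_comm, h3, Finset.card_insert_of_notMem ha, pow_succ]
    exact mul_le_mul' (ih fun k hk l hl => hW k (Finset.mem_insert_of_mem hk) l
      (Finset.mem_insert_of_mem hl)) (hδ a)

/-! ### paths -/

/-- the steps -/
noncomputable def S9 : Finset Site := Finset.Icc (-1) 1 ×ˢ Finset.Icc (-1) 1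

theorem S9_card : S9.card = 9 := by
  rw [S9, Finset.card_product, Int.card_Icc]
  norm_num
  rfl

/-- positions -/
def pos (k : Site) {n : ℕ} (s : Fin n → Site) (i : ℕ) : Site :=
  k + ∑ j : Fin n, if (j : ℕ) < i then s j else 0

theorem pos_eq {n : ℕ} (f : ℕ → Site) {i : ℕ} (hi : i ≤ n) :
    pos (f 0) (fun j : Fin n => f (j + 1) - f j) i = f i := by
  unfold pos
  rw [Fin.sum_univ_eq_sum_range (fun j => if j < i then f (j + 1) - f j else 0) n,
    ← Finset.sum_filter]
  have : (Finset.range n).filter (fun j => j < i) = Finset.range i := by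
    ext j
    simp only [Finset.mem_filter, Finset.mem_range]
    omega
  rw [this, Finset.sum_range_sub]
  abel

/-- many sites contain many sites in one class -/
theorem exists_class {r : ℕ} (V : Finset Site) {m : ℕ} (h : (2 * r + 1) ^ 2 * m ≤ V.card) :
    ∃ W ⊆ V, m ≤ W.card ∧ ∀ k ∈ W, ∀ l ∈ W, k ≠ l →
      (2 * (r : ℤ) + 1 ≤ |k.1 - l.1|) ∨ (2 * (r : ℤ) + 1 ≤ |k.2 - l.2|) := by
  classical
  set M : ℤ := 2 * r + 1 with hM
  have hMp : 0 < M := by positivity
  set T : Finset Site := Finset.Ico 0 M ×ˢ Finset.Ico 0 M with hT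
  have hTc : T.card = (2 * r + 1) ^ 2 := by
    rw [hT, Finset.card_product, Int.card_Ico, sub_zero, hM]
    have : (2 * (r : ℤ) + 1).toNat = 2 * r + 1 := by omega
    rw [this, sq]
  have hmap : ∀ k ∈ V, (k.1 % M, k.2 % M) ∈ T := by
    intro k _
    rw [hT, Finset.mem_product, Finset.mem_Ico, Finset.mem_Ico]
    exact ⟨⟨Int.emod_nonneg _ hMp.ne', Int.emod_lt_of_pos _ hMp⟩,
      ⟨Int.emod_nonneg _ hMp.ne', Int.emod_lt_of_pos _ hMp⟩⟩
  have hTne : T.Nonempty := by
    rw [← Finset.card_pos, hTc]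
    positivity
  obtain ⟨c, -, hc2⟩ := Finset.exists_le_card_fiber_of_mul_le_card_of_maps_to hmap hTne
    (by rw [hTc]; exact h)
  refine ⟨_, Finset.filter_subset _ _, hc2, ?_⟩
  intro k hk l hl hkl
  have h1 := (Finset.mem_filter.1 hk).2.trans (Finset.mem_filter.1 hl).2.symm
  have h2 : k.1 % M = l.1 % M := congrArg Prod.fst h1
  have h3 : k.2 % M = l.2 % M := congrArg Prod.snd h1
  have key : ∀ a b : ℤ, a % M = b % M → a ≠ b → M ≤ |a - b| := by
    intro a b hab hne
    have hd : M ∣ a - b := Int.ModEq.dvd (Int.ModEq.symm (show a ≡ b [ZMOD M] from hab))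
    exact Int.le_of_dvd (abs_pos.2 (sub_ne_zero.2 hne)) ((dvd_abs _ _).2 hd)
  by_cases h4 : k.1 = l.1
  · right
    apply key _ _ h3
    intro h5
    exact hkl (Prod.ext h4 h5)
  · left
    exact key _ _ h2 h4

/-- the finite-size criterion -/
theorem criterion {r L : ℕ} (hr : Rg U r) (hL : 0 < L) (hrL : r ≤ L) (hN : NoHole U)
    (p : unitInterval) (h : 9 ^ ((2 * r + 1) ^ 2) * (4 * (r * L) * q U p L) < 1) :
    P p (perc U) = 1 := by
  set D : ℕ := (2 * r + 1) ^ 2 with hD
  set δ : ℝ≥0∞ := 4 * (r * L) * q U p L with hδ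
  have hDp : 0 < D := by positivity
  have hδ1 : δ ≤ 1 := by
    have : (1 : ℝ≥0∞) ≤ 9 ^ D := one_le_pow₀ (by norm_num)
    calc δ = 1 * δ := (one_mul _).symm
      _ ≤ 9 ^ D * δ := mul_le_mul_left this _
      _ ≤ 1 := h.le
  have hbad : ∀ k, P p (Bad U L r k) ≤ δ := fun k => bad_le hL hr p k
  -- one site
  have hx : ∀ x : Site, P p {ω : Conf | x ∉ clos U (init ω)} = 0 := by
    intro x
    have hm : ∀ m : ℕ, 1 ≤ m → P p {ω : Conf | x ∉ clos U (init ω)} ≤ (9 ^ D * δ) ^ m := by
      intro m hm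
      set n : ℕ := D * m - 1 with hn
      have hn1 : n + 1 = D * m := by
        have : 1 ≤ D * m := Nat.mul_pos hDp hm
        omega
      have hsub : {ω : Conf | x ∉ clos U (init ω)} ⊆
          ⋃ s ∈ Fintype.piFinset (fun _ : Fin n => S9), {ω : Conf |
            (∀ i ≤ n, ∀ j ≤ n, pos (idx L x) s i = pos (idx L x) s j → i = j) ∧
            ∀ i ≤ n, ω ∈ Bad U L r (pos (idx L x) s i)} := by
        intro ω hω
        obtain ⟨f, hf0, hf1, hf2, hf3⟩ := exists_path hL hr (by exact_mod_cast hrL) hN hω n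
        have hpos : ∀ i ≤ n, pos (idx L x) (fun j : Fin n => f (j + 1) - f j) i = f i := by
          intro i hi
          rw [← hf0]
          exact pos_eq f hi
        refine Set.mem_biUnion (x := fun j : Fin n => f (j + 1) - f j) ?_ ?_
        · simp only [Fintype.coe_piFinset, Set.mem_pi, Set.mem_univ, forall_true_left,
            Finset.mem_coe]
          intro j
          have := hf1 j j.2
          rw [abs_le, abs_le] at this
          simp only [S9, Finset.mem_product, Finset.mem_Icc, Prod.fst_sub, Prod.snd_sub]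
          exact this
        · refine ⟨fun i hi j hj hij => ?_, fun i hi => ?_⟩
          · rw [hpos i hi, hpos j hj] at hij
            exact hf2 i hi j hj hij
          · rw [hpos i hi]
            exact hf3 i hi
      have hone : ∀ s ∈ Fintype.piFinset (fun _ : Fin n => S9), P p {ω : Conf |
            (∀ i ≤ n, ∀ j ≤ n, pos (idx L x) s i = pos (idx L x) s j → i = j) ∧
            ∀ i ≤ n, ω ∈ Bad U L r (pos (idx L x) s i)} ≤ δ ^ m := by
        intro s _
        by_cases hinj : ∀ i ≤ n, ∀ j ≤ n, pos (idx L x) s i = pos (idx L x) s j → i = j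
        · set V : Finset Site := (Finset.range (n + 1)).image (pos (idx L x) s) with hV
          have hVc : V.card = D * m := by
            rw [hV, Finset.card_image_of_injOn, Finset.card_range, hn1]
            intro i hi j hj hij
            simp only [Finset.coe_range, Set.mem_Iio] at hi hj
            exact hinj i (by omega) j (by omega) hij
          obtain ⟨W, hWV, hWm, hWd⟩ := exists_class (r := r) V (m := m) (by rw [hVc])
          have h1 : {ω : Conf |
              (∀ i ≤ n, ∀ j ≤ n, pos (idx L x) s i = pos (idx L x) s j → i = j) ∧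
              ∀ i ≤ n, ω ∈ Bad U L r (pos (idx L x) s i)} ⊆ ⋂ k ∈ W, Bad U L r k := by
            rintro ω ⟨-, hω⟩
            simp only [Set.mem_iInter]
            intro k hk
            obtain ⟨i, hi, rfl⟩ := Finset.mem_image.1 (hWV hk)
            exact hω i (by have := Finset.mem_range.1 hi; omega)
          refine (measure_mono h1).trans ((bad_prod hr p hbad W ?_).trans ?_)
          · intro k hk l hl hkl
            exact reg_disj hL (hWd k hk l hl hkl)
          · exact pow_le_pow_of_le_one bot_le hδ1 hWm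
        · have h1 : {ω : Conf |
              (∀ i ≤ n, ∀ j ≤ n, pos (idx L x) s i = pos (idx L x) s j → i = j) ∧
              ∀ i ≤ n, ω ∈ Bad U L r (pos (idx L x) s i)} = ∅ := by
            ext ω
            simp only [Set.mem_ofPred_eq, Set.mem_empty_iff_false, iff_false, not_and]
            intro h2
            exact absurd h2 hinj
          rw [h1, measure_empty]
          exact bot_le
      refine (measure_mono hsub).trans ((measure_biUnion_finset_le _ _).trans
        ((Finset.sum_le_sum hone).trans ?_))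
      rw [Finset.sum_const, Fintype.card_piFinset_const, S9_card, nsmul_eq_mul,
        mul_pow (9 ^ D) δ m, ← pow_mul]
      refine mul_le_mul_left ?_ _
      push_cast
      exact pow_le_pow_right₀ (by norm_num) (by omega)
    have hlim : Filter.Tendsto (fun m : ℕ => (9 ^ D * δ) ^ m) Filter.atTop (nhds 0) :=
      ENNReal.tendsto_pow_atTop_nhds_zero_of_lt_one h
    refine le_antisymm (ge_of_tendsto hlim ?_) bot_le
    filter_upwards [Filter.eventually_ge_atTop 1] with m hm1
    exact hm m hm1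
  have hall : ∀ᵐ ω ∂(P p), ∀ x : Site, x ∈ clos U (init ω) := by
    rw [ae_all_iff]
    intro x
    exact hx x
  have hfin : perc U =ᵐ[P p] Set.univ := by
    rw [Filter.eventuallyEq_univ]
    filter_upwards [hall] with ω hω
    exact Set.eq_univ_of_forall hω
  rw [measure_congr hfin, measure_univ]

end Pool.Agent.Y982.UB
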